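import Pool.Agent.Helper33.HM.Tools

/-!
# HM-A1: a tree of partitions (the child `m` of `τ` is `m :: τ`)
-/

set_option autoImplicit false

namespace Pool.Agent.Helper33.HM

universe u

variable {B : Type u} [CompleteBooleanAlgebra B] {T : Set B}

theorem exists_tree (hc : CCC B) (hT : IsSub T) (Q : ℕ → B → Prop) (hQbot : ∀ n, Q n ⊥)
    (hQ : ∀ n, ∀ b ∈ T, b ≠ ⊥ → ∃ c ∈ T, c ≠ ⊥ ∧ c ≤ b ∧ Q n c) {b : B} (hb : b ∈ T)
    (hb0 : b ≠ ⊥) :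
    ∃ a : List ℕ → B, (∀ τ, a τ ∈ T) ∧ a [] ≤ b ∧ a [] ≠ ⊥ ∧ (∀ τ, Q τ.length (a τ)) ∧
      (∀ τ m n, m ≠ n → a (m :: τ) ⊓ a (n :: τ) = ⊥) ∧ ∀ τ, ⨆ m, a (m :: τ) = a τ := by
  classical
  obtain ⟨c, hcT, hc0, hcb, hcQ⟩ := hQ 0 b hb hb0
  -- one step of the recursion
  have step : ∀ (n : ℕ) (e : {e : B // e ∈ T}), ∃ p : ℕ → {e : B // e ∈ T},
      (∀ m, Q (n + 1) (p m).1) ∧ (∀ m k, m ≠ k → (p m).1 ⊓ (p k).1 = ⊥) ∧
        ⨆ m, (p m).1 = e.1 := by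
    intro n e
    obtain ⟨p, h1, h2, _, h4, h5⟩ :=
      exists_partition hc hT (Q (n + 1)) (hQ (n + 1)) (hQbot (n + 1)) e.2
    exact ⟨fun m => ⟨p m, h1 m⟩, h2, h4, h5⟩
  choose p hp1 hp2 hp3 using step
  let a : List ℕ → {e : B // e ∈ T} := fun τ =>
    List.rec (motive := fun _ => {e : B // e ∈ T}) ⟨c, hcT⟩ (fun m τ e => p τ.length e m) τ
  have ha0 : a [] = ⟨c, hcT⟩ := rfl
  have hac : ∀ m τ, a (m :: τ) = p τ.length (a τ) m := fun _ _ => rfl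
  refine ⟨fun τ => (a τ).1, fun τ => (a τ).2, ?_, ?_, ?_, ?_, ?_⟩
  · show (a []).1 ≤ b
    rw [ha0]; exact hcb
  · show (a []).1 ≠ ⊥
    rw [ha0]; exact hc0
  · intro τ
    cases τ with
    | nil =>
      show Q 0 (a []).1
      rw [ha0]; exact hcQ
    | cons m τ =>
      show Q (τ.length + 1) (a (m :: τ)).1
      rw [hac]; exact hp1 _ _ _
  · intro τ m n hmn
    simp only [hac]
    exact hp2 _ _ _ _ hmn
  · intro τ
    simp only [hac]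
    exact hp3 _ _

end Pool.Agent.Helper33.HM
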